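import Pool.Agent.Run7.h500.RD.Stm
/-!
# Project RD2 (MP_9de3af_an): the theorem of RD with the weights `exp(-|z.u|^ρ0)`, `ρ0 < 1`

Same proof as RD (module Run7.h500.RD.Stm), with the kernel
`Z^(-k) exp(-ε (-i Z)^ρ)`, `Z = w y - x + c`, `Im Z > 0`, `ρ0 < ρ < 1`, in place of `Z^(-k)`; its modulus is
at most `|Z|^(-k) exp(-ε cos(πρ/2) |Z|^ρ)`.  At the end `ε → 0`.
-/
set_option autoImplicit false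
open MeasureTheory Filter Topology Set

namespace Pool.Agent.Run7.h500.RD

/-- the direction `a` is integrable with the weight `exp(-|x - a y|^ρ0)` -/
def WE (f : ℝ × ℝ → ℝ) (ρ0 : ℝ) (a : ℝ) : Prop :=
  Integrable (fun z : ℝ × ℝ => f z * Real.exp (-(|z.1 - a * z.2| ^ ρ0)))

/-- the weighted norm of the direction is locally integrable near `a` -/
def LE' (f : ℝ × ℝ → ℝ) (ρ0 : ℝ) (a : ℝ) : Prop :=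
  ∃ δ : ℝ, 0 < δ ∧ IntegrableOn
    (fun t : ℝ × (ℝ × ℝ) => f t.2 * Real.exp (-(|t.2.1 - t.1 * t.2.2| ^ ρ0)))
    (Ioo (a - δ) (a + δ) ×ˢ (univ : Set (ℝ × ℝ)))

/-- the weighted norm of the direction `a` -/
noncomputable def NE (f : ℝ × ℝ → ℝ) (ρ0 : ℝ) (a : ℝ) : ℝ :=
  ∫ z : ℝ × ℝ, |f z| * Real.exp (-(|z.1 - a * z.2| ^ ρ0))

/-- Standing hypotheses on `f` (lines `x = b + a y`). -/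
structure Hyp2 (f : ℝ × ℝ → ℝ) (ρ0 : ℝ) (m : ℕ) (C : ℝ) : Prop where
  cont : Continuous f
  growth : ∀ x y : ℝ, |f (x, y)| ≤ C * (1 + |x| + |y|) ^ m
  wint : ∀ a : ℝ, WE f ρ0 a ∨ LE' f ρ0 a
  zero : ∀ a b : ℝ, ∫ y : ℝ, f (b + a * y, y) = 0
  hor : ∀ y : ℝ, Integrable (fun x : ℝ => f (x, y))

/-- parameters of the kernel -/
structure Par (ρ0 ρ ε : ℝ) : Prop where
  h0 : 0 < ρ0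
  h1 : ρ0 < ρ
  h2 : ρ < 1
  h3 : 0 < ε

/-- `exp(-ε (-i Z)^ρ)` -/
noncomputable def EE (ρ ε : ℝ) (Z : ℂ) : ℂ :=
  Complex.exp (-((ε : ℂ) * (-Complex.I * Z) ^ (ρ : ℂ)))

/-- The kernel `Z^(-k) exp(-ε (-i Z)^ρ)`, `Z = w y - x + c`. -/
noncomputable def ker2 (ρ ε : ℝ) (k : ℕ) (c w : ℂ) (z : ℝ × ℝ) : ℂ :=
  ker k c w z * EE ρ ε (w * (z.2 : ℂ) - (z.1 : ℂ) + c)

noncomputable def Vp2 (f : ℝ × ℝ → ℝ) (ρ ε : ℝ) (k : ℕ) (c w : ℂ) : ℂ :=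
  ∫ z in up, (f z : ℂ) * ker2 ρ ε k c w z

noncomputable def V2 (f : ℝ × ℝ → ℝ) (ρ ε : ℝ) (k : ℕ) (c w : ℂ) : ℂ :=
  if 0 < w.im then Vp2 f ρ ε k c w else - Vp2 (flip f) ρ ε k c (-w)

/-- FLIP2, as FLIP. -/
def S_FLIP2 : Prop := ∀ f ρ0 m C, Hyp2 f ρ0 m C → Hyp2 (flip f) ρ0 m C

/-- TRANS2, as TRANS; `|s + t|^ρ0 ≥ |s|^ρ0 - |t|^ρ0` for `0 < ρ0 < 1` gives
`exp(-|s+t|^ρ0) ≤ exp(|t|^ρ0) exp(-|s|^ρ0)`. -/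
def S_TRANS2 : Prop := ∀ f ρ0 m C, 0 < ρ0 → ρ0 < 1 → Hyp2 f ρ0 m C → ∀ y0 : ℝ,
  ∃ C' : ℝ, Hyp2 (fun z => f (z.1, z.2 + y0)) ρ0 m C'

/-- KER2: the exponential factor.  PROOF: `-i Z` has positive real part `Im Z`, so
`|arg(-i Z)| < π/2` and `Re ((-i Z)^ρ) = |Z|^ρ cos(ρ arg) ≥ |Z|^ρ cos(πρ/2)`.  Holomorphic: cpow on
the slit plane.  Derivative: `EE' = -ε ρ (-i) (-i Z)^(ρ-1) EE`, `|(-iZ)^(ρ-1)| = |Z|^(ρ-1)`. -/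
def S_KER2 : Prop := ∀ ρ ε : ℝ, 0 < ρ → ρ < 1 → 0 < ε →
  DifferentiableOn ℂ (EE ρ ε) {Z | 0 < Z.im} ∧
  (∀ Z : ℂ, 0 < Z.im → ‖EE ρ ε Z‖ ≤ Real.exp (-(ε * Real.cos (Real.pi * ρ / 2) * ‖Z‖ ^ ρ))) ∧
  (∀ Z : ℂ, 0 < Z.im → ‖EE ρ ε Z‖ ≤ 1) ∧
  (∀ Z : ℂ, 0 < Z.im → ‖deriv (EE ρ ε) Z‖ ≤ ε * ρ * ‖Z‖ ^ (ρ - 1))

/-- BND2.  PROOF: `|EE| ≤ 1`, so the integrand of BND majorizes (only continuity, growth and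
`m + 3 ≤ k` are used there). -/
def S_BND2 : Prop := S_KER2 → ∀ f ρ0 m k C, m + 4 ≤ k → Hyp2 f ρ0 m C → ∀ ρ ε, Par ρ0 ρ ε →
  ∀ c : ℂ, 0 < c.im → ∃ A : ℝ, 0 ≤ A ∧
  ∀ w : ℂ, 0 < w.im → IntegrableOn (fun z => (f z : ℂ) * ker2 ρ ε k c w z) up ∧
    ‖Vp2 f ρ ε k c w‖ ≤ A * (1 + ‖w‖) ^ m / w.im ^ (m + 1)

/-- HOL2, as HOL.  The derivative of `Z^(-k) EE(Z)` is at most
`(k |Z|^(-1) + ε ρ |Z|^(ρ-1)) |Z|^(-k) ≤ const (|Z|^(-k-1) + |Z|^(-k))` for `Im Z ≥ Im c`, and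
`y ≤ |Z|/η`; so the majorant is `const |f| |Z|^(-(k-1))`, and `k - 1 ≥ m + 3` (use the
integrability of `|f| |w0 y - x + c|^(-(k-1))`, from the proof of BND). -/
def S_HOL2 : Prop := S_KER2 → ∀ f ρ0 m k C, m + 4 ≤ k → Hyp2 f ρ0 m C → ∀ ρ ε, Par ρ0 ρ ε →
  ∀ c : ℂ, 0 < c.im → DifferentiableOn ℂ (Vp2 f ρ ε k c) {w | 0 < w.im}

/-- VERT2.  PROOF: `|Z| ≥ Im Z ≥ Im c`, `|x - a y| ≤ |Z| + |c|`; with `κ = ε cos(πρ/2) > 0`: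
`|ker2| ≤ (Im c)^(-k) exp(-κ |Z|^ρ)` and `(|Z|+|c|)^ρ0 - κ |Z|^ρ` is bounded above as `ρ0 < ρ`
(subadditivity: `(|Z|+|c|)^ρ0 ≤ |Z|^ρ0 + |c|^ρ0`, and `t^ρ0 ≤ κ t^ρ + const`). -/
def S_VERT2 : Prop := S_KER2 → ∀ (ρ0 ρ ε : ℝ) (k : ℕ) (c : ℂ), Par ρ0 ρ ε → 0 < c.im →
  ∃ B : ℝ, 0 ≤ B ∧ ∀ f, Continuous f → ∀ a η : ℝ, WE f ρ0 a → 0 ≤ η →
  IntegrableOn (fun z => (f z : ℂ) * ker2 ρ ε k c ((a : ℂ) + η * Complex.I) z) up ∧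
    ‖Vp2 f ρ ε k c ((a : ℂ) + η * Complex.I)‖ ≤ B * NE f ρ0 a

/-- LIM2, as LIM. -/
def S_LIM2 : Prop := S_KER2 → ∀ (ρ0 ρ ε : ℝ) (k : ℕ) (c : ℂ), Par ρ0 ρ ε → 0 < c.im →
  ∀ f, Continuous f → ∀ a : ℝ, WE f ρ0 a →
  Tendsto (fun η : ℝ => Vp2 f ρ ε k c ((a : ℂ) + η * Complex.I)) (𝓝[>] 0)
    (𝓝 (Vp2 f ρ ε k c (a : ℂ)))

/-- FUB2, as FUB. -/
def S_FUB2 : Prop := S_KER2 → ∀ (ρ0 ρ ε : ℝ) (k : ℕ) (c : ℂ), Par ρ0 ρ ε → 0 < c.im →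
  ∀ f, Continuous f → (∀ a b : ℝ, ∫ y : ℝ, f (b + a * y, y) = 0) → ∀ a : ℝ, WE f ρ0 a →
  Vp2 f ρ ε k c (a : ℂ) + Vp2 (flip f) ρ ε k c (-(a : ℂ)) = 0

/-- LSC2, as LSC. -/
def S_LSC2 : Prop := ∀ f (ρ0 : ℝ), 0 < ρ0 → Continuous f → ∀ M : ℝ,
  IsClosed {a : ℝ | WE f ρ0 a ∧ NE f ρ0 a ≤ M}

/-- VD2, as VD. -/
def S_VD2 : Prop := S_KER2 → S_FLIP2 → S_HOL2 → ∀ f ρ0 m k C, m + 4 ≤ k → Hyp2 f ρ0 m C →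
  ∀ ρ ε, Par ρ0 ρ ε → ∀ c : ℂ, 0 < c.im → DifferentiableOn ℂ (V2 f ρ ε k c) {w | w.im ≠ 0}

/-- VB2, as VB. -/
def S_VB2 : Prop := S_KER2 → S_VERT2 → S_LIM2 → S_FUB2 →
  ∀ (ρ0 ρ ε : ℝ) (k : ℕ) (c : ℂ), Par ρ0 ρ ε → 0 < c.im →
  ∃ B : ℝ, 0 ≤ B ∧ ∀ f, Continuous f → (∀ a b : ℝ, ∫ y : ℝ, f (b + a * y, y) = 0) →
  ∀ a : ℝ, WE f ρ0 a →
  (∀ η : ℝ, η ≠ 0 → ‖V2 f ρ ε k c ((a : ℂ) + η * Complex.I)‖ ≤ B * NE f ρ0 a) ∧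
  Tendsto (fun η : ℝ => V2 f ρ ε k c ((a : ℂ) + η * Complex.I)) (𝓝[≠] 0)
    (𝓝 (Vp2 f ρ ε k c (a : ℂ)))

/-- LOC2, as LOC. -/
def S_LOC2 : Prop := S_KER2 → S_VD2 → S_VB2 → S_FLIP2 → S_HOL2 → S_VERT2 → S_LIM2 → S_FUB2 →
  S_GLUE → ∀ f ρ0 m k C, m + 4 ≤ k → Hyp2 f ρ0 m C → ∀ ρ ε, Par ρ0 ρ ε → ∀ c : ℂ, 0 < c.im →
  ∀ a : ℝ, LE' f ρ0 a → ∃ δ : ℝ, 0 < δ ∧ ∃ H : ℂ → ℂ,
    DifferentiableOn ℂ H {w | w.im ≠ 0 ∨ (a - δ < w.re ∧ w.re < a + δ)} ∧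
    ∀ w : ℂ, w.im ≠ 0 → H w = V2 f ρ ε k c w

/-- EPS2.  PROOF: dominated convergence `ε = 1/n → 0` (`|EE| ≤ 1`, `EE → 1`; `|f| |Z|^(-k)` is
integrable on `up` by the proof of BND). -/
def S_EPS2 : Prop := S_KER2 → ∀ (f : ℝ × ℝ → ℝ) (m k : ℕ) (C : ℝ), Continuous f → m + 4 ≤ k →
  (∀ x y : ℝ, |f (x, y)| ≤ C * (1 + |x| + |y|) ^ m) → ∀ ρ : ℝ, 0 < ρ → ρ < 1 →
  ∀ c w : ℂ, 0 < c.im → 0 < w.im → (∀ ε : ℝ, 0 < ε → Vp2 f ρ ε k c w = 0) → Vp f k c w = 0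

/-- SLICE2: SLICE under the hypotheses that its proof uses. -/
def S_SLICE2 : Prop := ∀ (f : ℝ × ℝ → ℝ) (m k : ℕ) (C : ℝ), Continuous f → m + 3 ≤ k →
  (∀ x y : ℝ, |f (x, y)| ≤ C * (1 + |x| + |y|) ^ m) →
  (∀ c w : ℂ, 0 < c.im → 0 < w.im → Vp f k c w = 0) →
  ∀ c : ℂ, 0 < c.im → ∫ x : ℝ, (f (x, 0) : ℂ) * ((c - (x : ℂ)) ^ (k - 1))⁻¹ = 0

/-- the hypothesis on the directions in the theorem -/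
def Directions2 (f : ℝ × ℝ → ℝ) : Prop :=
  ∃ ρ : ℝ, 0 < ρ ∧ ρ < 1 ∧ ∀ θ : ℝ,
    Integrable (fun z : ℝ × ℝ =>
      f z * Real.exp (-(|z.1 * Real.cos θ + z.2 * Real.sin θ| ^ ρ))) ∨
    ∃ δ : ℝ, 0 < δ ∧ IntegrableOn (fun z : ℝ × ℝ => f z / (1 + Real.sqrt (z.1 ^ 2 + z.2 ^ 2)))
      {z | |z.1 * Real.cos θ + z.2 * Real.sin θ| ≤ δ * Real.sqrt (z.1 ^ 2 + z.2 ^ 2)}

/-- CHART2, as CHART (`|z.u| ≤ |x - a y|`, so the weights compare; for the cone alternative use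
CONE with `k = m + 3` and `exp(-|s|^ρ) ≤ const (1+|s|)^(-k)`). -/
def S_CHART2 : Prop := S_CONE → ∀ f : ℝ × ℝ → ℝ, Continuous f →
  (∃ c : ℝ, ∃ m : ℕ, 0 < c ∧
    ∀ x y : ℝ, |f (x, y)| ≤ c * (1 + (Real.sqrt (x ^ 2 + y ^ 2)) ^ m)) →
  (∀ θ p : ℝ, Integrable
    (fun t : ℝ => f (p * Real.cos θ - t * Real.sin θ, p * Real.sin θ + t * Real.cos θ))) →
  (∀ θ p : ℝ,
    ∫ t : ℝ, f (p * Real.cos θ - t * Real.sin θ, p * Real.sin θ + t * Real.cos θ) = 0) →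
  Directions2 f →
  ∃ ρ0 : ℝ, 0 < ρ0 ∧ ρ0 < 1 ∧ ∃ m C, Hyp2 f ρ0 m C

end Pool.Agent.Run7.h500.RD
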