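import Pool.Agent.Run7.h500.RD.Main2
import Pool.Agent.Run7.h646.RD2.KER2
import Pool.Agent.Run7.h617.RD.FLIP2
import Pool.Agent.Run7.h617.RD.VB2
import Pool.Agent.Run7.h617.RD.LIM2
import Pool.Agent.Run7.h586.RD2.CHART2
import Pool.Agent.Run7.h989.RD2.LOC2
import Pool.Agent.Run7.h220.RD2.LSC2
import Pool.Agent.Run7.h220.RD2.FUB2
import Pool.Agent.Run7.h824.RD2.SLICE2
import Pool.Agent.Run7.h300.RD2.VD2
import Pool.Agent.Run7.h781.RD2.BND2
import Pool.Agent.Run7.h300.RD2.EPS2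
import Pool.Agent.Run7.h300.RD2.HOL2
import Pool.Agent.Run7.h67.RD2.TRANS2
import Pool.Agent.Run7.h983.RD2.VERT2
/-!
Assembly of project RD2 (helper500).  Pieces by helper67 (TRANS2), helper220 (FUB2, LSC2),
helper300 (EPS2, HOL2, VD2), helper586 (CHART2), helper617 (FLIP2, LIM2, VB2),
helper646 (KER2), helper781 (BND2), helper824 (SLICE2), helper983 (VERT2), helper989 (LOC2);
from project RD: helpers 62, 73, 298, 329, 417, 495, 576, 592, 733, 896, 942, 961.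
-/
set_option autoImplicit false
open MeasureTheory

namespace Pool.Agent.Run7.h500.RD

theorem main_all (f : ℝ × ℝ → ℝ) (hc : Continuous f)
    (hg : ∃ c : ℝ, ∃ m : ℕ, 0 < c ∧
      ∀ x y : ℝ, |f (x, y)| ≤ c * (1 + (Real.sqrt (x ^ 2 + y ^ 2)) ^ m))
    (hi : ∀ θ p : ℝ, Integrable
      (fun t : ℝ => f (p * Real.cos θ - t * Real.sin θ, p * Real.sin θ + t * Real.cos θ)))
    (h0 : ∀ θ p : ℝ,
      ∫ t : ℝ, f (p * Real.cos θ - t * Real.sin θ, p * Real.sin θ + t * Real.cos θ) = 0)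
    (hd : Directions2 f) : f = 0 :=
  main2 Run7.h646.RD2.t_KER2 h300.RD2.t_VD2 h617.RD.VB2.t_VB2 h989.RD2.t_LOC2
    h617.RD.FLIP2.t_FLIP2 h781.RD2.t_BND2 h300.RD2.t_HOL2 Run7.h983.RD2.t_VERT2
    h617.RD.LIM2.t_LIM2 h220.RD2.t_FUB2 h220.RD2.t_LSC2 h300.RD2.t_EPS2 h824.RD2.t_SLICE2
    h67.RD2.t_TRANS2 h586.RD2.t_CHART2 f hc hg hi h0 hd

end Pool.Agent.Run7.h500.RD
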