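import Pool.Agent.Run7.h500.RD.Stm
set_option autoImplicit false
open MeasureTheory Filter Topology Set

namespace Pool.Agent.Run7.h500.RD

/-- the real point `a` has a neighbourhood across which `W` extends -/
def Ext (W : ℂ → ℂ) (a : ℝ) : Prop :=
  ∃ δ : ℝ, 0 < δ ∧ ∃ H : ℂ → ℂ,
    DifferentiableOn ℂ H {w | w.im ≠ 0 ∨ (a - δ < w.re ∧ w.re < a + δ)} ∧
    ∀ w : ℂ, w.im ≠ 0 → H w = W w

/-- the extended function -/
noncomputable def Gx (W : ℂ → ℂ) (w : ℂ) : ℂ :=
  if w.im = 0 then limUnder (𝓝[>] (0 : ℝ)) (fun η : ℝ => W ((w.re : ℂ) + η * Complex.I)) else W w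

lemma isOpen_strip (p q : ℝ) : IsOpen {w : ℂ | w.im ≠ 0 ∨ (p < w.re ∧ w.re < q)} := by
  have h1 : IsOpen {w : ℂ | w.im ≠ 0} := isOpen_ne_fun Complex.continuous_im continuous_const
  have h2 : IsOpen {w : ℂ | p < w.re ∧ w.re < q} :=
    (isOpen_lt continuous_const Complex.continuous_re).inter
      (isOpen_lt Complex.continuous_re continuous_const)
  exact h1.union h2

lemma vert_im (a η : ℝ) : ((a : ℂ) + η * Complex.I).im = η := by simp
lemma vert_re (a η : ℝ) : ((a : ℂ) + η * Complex.I).re = a := by simp

lemma tendsto_vert (a : ℝ) (s : Set ℝ) :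
    Tendsto (fun η : ℝ => (a : ℂ) + η * Complex.I) (𝓝[s] 0) (𝓝 (a : ℂ)) := by
  have : Continuous (fun η : ℝ => (a : ℂ) + η * Complex.I) := by fun_prop
  have h := (this.tendsto 0).mono_left (nhdsWithin_le_nhds (s := s))
  simpa using h

lemma eqOn_Gx {W H : ℂ → ℂ} {p q : ℝ}
    (hH : DifferentiableOn ℂ H {w | w.im ≠ 0 ∨ (p < w.re ∧ w.re < q)})
    (he : ∀ w : ℂ, w.im ≠ 0 → H w = W w) :
    EqOn (Gx W) H {w | w.im ≠ 0 ∨ (p < w.re ∧ w.re < q)} := by
  intro w hw
  by_cases h0 : w.im = 0
  · have hw' : p < w.re ∧ w.re < q := by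
      rcases hw with h | h
      · exact absurd h0 h
      · exact h
    have hwr : w = (w.re : ℂ) := by
      apply Complex.ext <;> simp [h0]
    have hc : ContinuousAt H w :=
      ((hH w hw).differentiableAt ((isOpen_strip p q).mem_nhds hw)).continuousAt
    have ht : Tendsto (fun η : ℝ => W ((w.re : ℂ) + η * Complex.I)) (𝓝[>] 0) (𝓝 (H w)) := by
      have h1 : Tendsto (fun η : ℝ => H ((w.re : ℂ) + η * Complex.I)) (𝓝[>] 0) (𝓝 (H w)) := by
        have h2 := tendsto_vert w.re (Ioi 0)
        have h3 : 𝓝 ((w.re : ℂ)) = 𝓝 w := by rw [← hwr]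
        rw [h3] at h2
        exact hc.tendsto.comp h2
      refine h1.congr' ?_
      filter_upwards [self_mem_nhdsWithin] with η hη
      apply he
      simp only [vert_im]
      exact ne_of_gt hη
    simp only [Gx, h0, if_true]
    exact ht.limUnder_eq
  · simp only [Gx, h0, if_false]
    exact (he w h0).symm

lemma diffAt_Gx {W : ℂ → ℂ} (hW : DifferentiableOn ℂ W {w | w.im ≠ 0}) {w : ℂ}
    (hw : w.im ≠ 0 ∨ Ext W w.re) : DifferentiableAt ℂ (Gx W) w := by
  have key : ∀ a : ℝ, Ext W a → DifferentiableAt ℂ (Gx W) (a : ℂ) := by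
    rintro a ⟨δ, hδ, H, hH, he⟩
    have heq := eqOn_Gx hH he
    have hmem : (a : ℂ) ∈ {w : ℂ | w.im ≠ 0 ∨ (a - δ < w.re ∧ w.re < a + δ)} := by
      right; simp only [Complex.ofReal_re]; constructor <;> linarith
    have ho := (isOpen_strip (a - δ) (a + δ)).mem_nhds hmem
    have h1 : DifferentiableAt ℂ H (a : ℂ) := (hH _ hmem).differentiableAt ho
    refine h1.congr_of_eventuallyEq ?_
    filter_upwards [ho] with z hz using heq hz
  by_cases h0 : w.im = 0
  · have hwr : w = (w.re : ℂ) := by
      apply Complex.ext <;> simp [h0]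
    rw [hwr]
    apply key
    rcases hw with h | h
    · exact absurd h0 h
    · exact h
  · have ho : {w : ℂ | w.im ≠ 0} ∈ 𝓝 w :=
      (isOpen_ne_fun Complex.continuous_im continuous_const).mem_nhds h0
    have h1 : DifferentiableAt ℂ W w := (hW w h0).differentiableAt ho
    refine h1.congr_of_eventuallyEq ?_
    filter_upwards [ho] with z hz
    have hz' : z.im ≠ 0 := hz
    simp [Gx, hz']

lemma isOpen_Ext (W : ℂ → ℂ) : IsOpen {a : ℝ | Ext W a} := by
  rw [Metric.isOpen_iff]
  rintro a ⟨δ, hδ, H, hH, he⟩
  refine ⟨δ / 2, by linarith, ?_⟩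
  intro b hb
  rw [Metric.mem_ball, Real.dist_eq, abs_lt] at hb
  refine ⟨δ / 2, by linarith, H, hH.mono ?_, he⟩
  intro w hw
  rcases hw with h | ⟨h1, h2⟩
  · left; exact h
  · right; constructor <;> linarith

theorem t_ENT : S_ENT := by
  intro hVD hVB hLOC hFLIP hBND hHOL hVERT hLIM hFUB hLSC hDISC hPL hGLUE f m k C hf c hc
  set W : ℂ → ℂ := V f k c with hWdef
  have hWd : DifferentiableOn ℂ W {w | w.im ≠ 0} := hVD hFLIP hBND hHOL f m k C hf c hc
  have hVB' := hVB hVERT hLIM hFUB f m k C hf c hc
  set B : ℝ := ((1 + ‖c‖) / c.im + 1) ^ k with hB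
  have hB0 : 0 ≤ B := by rw [hB]; positivity
  -- growth
  obtain ⟨A1, hA1, h1⟩ := hBND f m k C hf c hc
  obtain ⟨A2, hA2, h2⟩ := hBND (flip f) m k C (hFLIP f m k C hf) c hc
  have hgr : ∀ w : ℂ, w.im ≠ 0 → ‖W w‖ ≤ (A1 + A2) * (1 + ‖w‖) ^ m / |w.im| ^ (m + 1) := by
    intro w hw
    have hw' : 0 < |w.im| := abs_pos.mpr hw
    rcases lt_or_gt_of_ne hw with h | h
    · have h3 := (h2 (-w) (by simpa using h)).2
      have h4 : W w = - Vp (flip f) k c (-w) := by
        simp only [hWdef, V, if_neg (not_lt.mpr h.le)]
      rw [h4, norm_neg]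
      refine h3.trans ?_
      rw [norm_neg, Complex.neg_im, abs_of_neg h]
      gcongr
      · have : 0 < -w.im := by linarith
        positivity
      · linarith
    · have h3 := (h1 w h).2
      have h4 : W w = Vp f k c w := by
        simp only [hWdef, V, if_pos h]
      rw [h4]
      refine h3.trans ?_
      rw [abs_of_pos h]
      gcongr
      linarith
  have hA0 : 0 ≤ A1 + A2 := by linarith
  have hLOC' : ∀ a : ℝ, LI f k a → Ext W a := by
    intro a h
    exact hLOC hVD hVB hFLIP hBND hHOL hVERT hLIM hFUB hGLUE f m k C hf c hc a h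
  rw [← hWdef] at hVB'
  clear_value W B
  -- every real point is an extension point
  have hall : ∀ a : ℝ, Ext W a := by
    by_contra hcon
    push Not at hcon
    set E : Set ℝ := {a : ℝ | ¬ Ext W a} with hE
    have hEc : IsClosed E := by
      have := (isOpen_Ext W).isClosed_compl
      exact this
    have : Nonempty E := by
      obtain ⟨a, ha⟩ := hcon
      exact ⟨⟨a, ha⟩⟩
    have : CompleteSpace E := hEc.completeSpace_coe
    set F : ℕ → Set ℝ := fun n => {a : ℝ | WI f k a ∧ N f k a ≤ n} with hF
    have hFc : ∀ n, IsClosed (F n) := fun n => hLSC f k hf.cont n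
    have hWI : ∀ a ∈ E, WI f k a := by
      intro a ha
      rcases hf.wint a with h | h
      · exact h
      · exfalso
        apply ha
        exact hLOC' a h
    have hcov : (⋃ n : ℕ, (Subtype.val ⁻¹' (F n) : Set E)) = univ := by
      apply eq_univ_of_forall
      rintro ⟨a, ha⟩
      obtain ⟨n, hn⟩ := exists_nat_ge (N f k a)
      rw [mem_iUnion]
      exact ⟨n, show (a ∈ F n) from ⟨hWI a ha, hn⟩⟩
    obtain ⟨n, hn⟩ := nonempty_interior_of_iUnion_of_closed
      (fun n => (hFc n).preimage continuous_subtype_val) hcov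
    obtain ⟨⟨e, heE⟩, he⟩ := hn
    rw [mem_interior] at he
    obtain ⟨U', hU'sub, hU'o, heU'⟩ := he
    obtain ⟨U, hUo, hUU'⟩ := isOpen_induced_iff.mp hU'o
    have heU : e ∈ U := by
      have : (⟨e, heE⟩ : E) ∈ Subtype.val ⁻¹' U := by rw [hUU']; exact heU'
      exact this
    obtain ⟨δ, hδ, hδU⟩ := Metric.isOpen_iff.mp hUo e heU
    have hEF : ∀ a ∈ E, |a - e| < δ → WI f k a ∧ N f k a ≤ n := by
      intro a ha hae
      have h3 : a ∈ U := hδU (by rw [Metric.mem_ball, Real.dist_eq]; exact hae)
      have h4 : (⟨a, ha⟩ : E) ∈ U' := by rw [← hUU']; exact h3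
      have h5 := hU'sub h4
      exact (show a ∈ F n from h5)
    set α := e - δ / 2 with hα
    set β := e + δ / 2 with hβ
    have hαβ : α < β := by rw [hα, hβ]; linarith
    -- vertical bound over points of E
    have hvE : ∀ a ∈ E, α ≤ a → a ≤ β → ∀ w : ℂ, w.re = a → w.im ≠ 0 → ‖W w‖ ≤ B * n := by
      intro a ha h3 h4 w hw1 hw2
      have h5 := hEF a ha (by rw [abs_lt]; constructor <;> linarith)
      have h6 := (hVB' a h5.1).1 w.im hw2
      have h7 : ((a : ℂ) + w.im * Complex.I) = w := by
        rw [← hw1]; exact Complex.re_add_im w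
      rw [h7] at h6
      refine h6.trans ?_
      exact mul_le_mul_of_nonneg_left h5.2 hB0
    -- vertical bound over a point which is not in E
    have hvO : ∀ a : ℝ, ∃ M : ℝ, 0 ≤ M ∧ (a ∉ E → ∀ w : ℂ, w.re = a → w.im ≠ 0 → |w.im| ≤ 1 →
        ‖W w‖ ≤ M) := by
      intro a
      by_cases ha : a ∈ E
      · exact ⟨0, le_refl _, fun h => absurd ha h⟩
      · have haE : Ext W a := by
          by_contra h
          exact ha h
        have hcont : ContinuousOn (fun η : ℝ => Gx W ((a : ℂ) + η * Complex.I)) (Icc (-1) 1) := by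
          intro η _
          apply ContinuousAt.continuousWithinAt
          have h3 : ContinuousAt (Gx W) ((a : ℂ) + η * Complex.I) := by
            apply (diffAt_Gx hWd _).continuousAt
            right
            rw [vert_re]
            exact haE
          exact ContinuousAt.comp (f := fun η : ℝ => (a : ℂ) + η * Complex.I) h3
            (by fun_prop)
        obtain ⟨M, hM⟩ := isCompact_Icc.exists_bound_of_continuousOn hcont
        refine ⟨max M 0, le_max_right _ _, ?_⟩
        intro _ w hw1 hw2 hw3
        have h4 := hM w.im (by rw [mem_Icc]; exact abs_le.mp hw3)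
        have h5 : ((a : ℂ) + w.im * Complex.I) = w := by
          rw [← hw1]; exact Complex.re_add_im w
        rw [h5] at h4
        simp only [Gx, hw2, if_false] at h4
        exact h4.trans (le_max_left _ _)
    obtain ⟨Mα, hMα0, hMα⟩ := hvO α
    obtain ⟨Mβ, hMβ0, hMβ⟩ := hvO β
    set R : ℝ := |α| + |β| + 1 with hR
    have hnorm : ∀ w : ℂ, |w.im| ≤ 1 → α ≤ w.re → w.re ≤ β → ‖w‖ ≤ R := by
      intro w h3 h4 h5
      have h6 := Complex.norm_le_abs_re_add_abs_im w
      have h7 : |w.re| ≤ |α| + |β| := by
        rw [abs_le]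
        constructor
        · have := neg_abs_le α
          have := abs_nonneg β
          linarith
        · have := le_abs_self β
          have := abs_nonneg α
          linarith
      rw [hR]
      linarith
    set A' : ℝ := (A1 + A2) * (1 + R) ^ m with hA'
    have hR0 : 0 ≤ R := by rw [hR]; positivity
    have hA'0 : 0 ≤ A' := by rw [hA']; positivity
    have hgr' : ∀ w : ℂ, w.im ≠ 0 → |w.im| ≤ 1 → α ≤ w.re → w.re ≤ β →
        ‖W w‖ ≤ A' / |w.im| ^ (m + 1) := by
      intro w h3 h4 h5 h6
      refine (hgr w h3).trans ?_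
      rw [hA']
      have := hnorm w h4 h5 h6
      gcongr
    set M : ℝ := B * n + Mα + Mβ + A' with hM
    have hBn : 0 ≤ B * (n : ℝ) := by positivity
    have hM0 : 0 ≤ M := by rw [hM]; linarith
    -- the main bound
    have hbd : ∀ w : ℂ, w.im ≠ 0 → |w.im| < 1 → α < w.re → w.re < β → ‖W w‖ ≤ M := by
      intro w h3 h4 h5 h6
      by_cases haE : w.re ∈ E
      · refine (hvE w.re haE h5.le h6.le w rfl h3).trans ?_
        rw [hM]; linarith
      · set S : Set ℝ := E ∪ {α, β} with hS
        have hSc : IsClosed S := hEc.union (by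
          have : ({α, β} : Set ℝ).Finite := by simp
          exact this.isClosed)
        have haS : w.re ∉ S := by
          rintro (h | h)
          · exact haE h
          · rcases h with h | h
            · linarith
            · rw [mem_singleton_iff] at h; linarith
        have hK1 : IsCompact (S ∩ Icc α w.re) := isCompact_Icc.inter_left hSc
        have hK2 : IsCompact (S ∩ Icc w.re β) := isCompact_Icc.inter_left hSc
        obtain ⟨p, ⟨hpS, hp1, hp2⟩, hpm⟩ := hK1.exists_isGreatest
          ⟨α, Or.inr (by simp), le_refl _, h5.le⟩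
        obtain ⟨q, ⟨hqS, hq1, hq2⟩, hqm⟩ := hK2.exists_isLeast
          ⟨β, Or.inr (by simp), h6.le, le_refl _⟩
        have hpw : p < w.re := lt_of_le_of_ne hp2 (fun h => haS (h ▸ hpS))
        have hwq : w.re < q := lt_of_le_of_ne hq1 (fun h => haS (h ▸ hqS))
        have hgap : ∀ x : ℝ, p < x → x < q → x ∉ S := by
          intro x hx1 hx2 hxS
          rcases le_total x w.re with h | h
          · have := hpm ⟨hxS, by linarith, h⟩
            linarith
          · have := hqm ⟨hxS, h, by linarith⟩
            linarith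
        have hside : ∀ s : ℝ, s ∈ S → α ≤ s → s ≤ β → ∀ z : ℂ, z.re = s → z.im ≠ 0 →
            |z.im| ≤ 1 → ‖W z‖ ≤ M := by
          intro s hsS hs1 hs2 z hz1 hz2 hz3
          by_cases hsE : s ∈ E
          · refine (hvE s hsE hs1 hs2 z hz1 hz2).trans ?_
            rw [hM]; linarith
          · rcases hsS with h | h
            · exact absurd h hsE
            · rcases h with h | h
              · rw [h] at hsE hz1
                refine (hMα hsE z hz1 hz2 hz3).trans ?_
                rw [hM]; linarith
              · rw [mem_singleton_iff] at h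
                rw [h] at hsE hz1
                refine (hMβ hsE z hz1 hz2 hz3).trans ?_
                rw [hM]; linarith
        have hGW : ∀ z : ℂ, z.im ≠ 0 → Gx W z = W z := by
          intro z hz; simp [Gx, hz]
        have hres := hPL hDISC (Gx W) p q M A' (m + 1) (by linarith) hM0 hA'0 (by
            intro z hz
            apply DifferentiableAt.differentiableWithinAt
            apply diffAt_Gx hWd
            rcases hz with hz | ⟨hz1, hz2⟩
            · left; exact hz
            · right
              by_contra hcon2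
              exact hgap z.re hz1 hz2 (Or.inl hcon2)) (by
            intro z hz1 hz2 hz3
            rw [hGW z hz1]
            rcases hz3 with hz3 | hz3
            · exact hside p hpS hp1 (by linarith) z hz3 hz1 hz2
            · exact hside q hqS (by linarith) hq2 z hz3 hz1 hz2) (by
            intro z hz1 hz2 hz3
            have hz0 : z.im ≠ 0 := by
              intro h; rw [h] at hz1; simp at hz1
            rw [hGW z hz0]
            have := hgr' z hz0 hz1.le (by linarith) (by linarith)
            rw [hz1, one_pow, div_one] at this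
            refine this.trans ?_
            rw [hM]; linarith) (by
            intro z hz1 hz2 hz3 hz4
            rw [hGW z hz1]
            exact hgr' z hz1 hz2 (by linarith) (by linarith)) w hpw hwq h4
        rwa [hGW w h3] at hres
    -- glue
    obtain ⟨H, hH, heH⟩ := hGLUE W α β (fun _ => M) hαβ hWd
      (by
        rw [integrableOn_const_iff]
        right
        exact measure_Ioo_lt_top) (by
        refine Filter.Eventually.of_forall ?_
        intro a ha
        constructor
        · intro η hη1 hη2
          apply hbd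
          · rw [vert_im]; exact hη1
          · rw [vert_im]; exact hη2
          · rw [vert_re]; exact ha.1
          · rw [vert_re]; exact ha.2
        · by_cases haE : a ∈ E
          · have h5 := hEF a haE (by
              rw [abs_lt]
              have := ha.1
              have := ha.2
              constructor <;> linarith)
            exact ⟨_, (hVB' a h5.1).2⟩
          · have haE' : Ext W a := by
              by_contra h
              exact haE h
            refine ⟨Gx W (a : ℂ), ?_⟩
            have h3 : ContinuousAt (Gx W) (a : ℂ) := by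
              apply (diffAt_Gx hWd _).continuousAt
              right
              exact haE'
            have h4 := h3.tendsto.comp (tendsto_vert a {0}ᶜ)
            refine h4.congr' ?_
            filter_upwards [self_mem_nhdsWithin] with η hη
            have hη' : η ≠ 0 := hη
            simp [Gx, hη'])
    apply heE
    refine ⟨δ / 2, by linarith, H, hH, heH⟩
  refine ⟨Gx W, ?_, ?_⟩
  · intro w
    apply diffAt_Gx hWd
    right
    exact hall _
  · intro w hw
    simp [Gx, hw]

end Pool.Agent.Run7.h500.RD
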