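import Pool.Agent.Run7.h500.RD.ENT
import Pool.Agent.Run7.h500.RD.Stm2
set_option autoImplicit false
open MeasureTheory Filter Topology Set

namespace Pool.Agent.Run7.h500.RD

theorem t_ENT2 (hKER : S_KER2) (hVD : S_VD2) (hVB : S_VB2) (hLOC : S_LOC2) (hFLIP : S_FLIP2)
    (hBND : S_BND2) (hHOL : S_HOL2) (hVERT : S_VERT2) (hLIM : S_LIM2) (hFUB : S_FUB2)
    (hLSC : S_LSC2) (hDISC : S_DISC) (hPL : S_PL) (hGLUE : S_GLUE) :
    ∀ (f : ℝ × ℝ → ℝ) (ρ0 : ℝ) (m k : ℕ) (C : ℝ), m + 4 ≤ k → Hyp2 f ρ0 m C → ∀ ρ ε : ℝ,
      Par ρ0 ρ ε → ∀ c : ℂ, 0 < c.im →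
      ∃ H : ℂ → ℂ, Differentiable ℂ H ∧ ∀ w : ℂ, w.im ≠ 0 → H w = V2 f ρ ε k c w := by
  intro f ρ0 m k C hk hf ρ ε hpar c hc
  set W : ℂ → ℂ := V2 f ρ ε k c with hWdef
  have hWd : DifferentiableOn ℂ W {w | w.im ≠ 0} :=
    hVD hKER hFLIP hHOL f ρ0 m k C hk hf ρ ε hpar c hc
  obtain ⟨B, hB0, hVB0⟩ := hVB hKER hVERT hLIM hFUB ρ0 ρ ε k c hpar hc
  have hVB' := hVB0 f hf.cont hf.zero
  -- growth
  obtain ⟨A1, hA1, h1⟩ := hBND hKER f ρ0 m k C hk hf ρ ε hpar c hc
  obtain ⟨A2, hA2, h2⟩ := hBND hKER (flip f) ρ0 m k C hk (hFLIP f ρ0 m C hf) ρ ε hpar c hc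
  have hgr : ∀ w : ℂ, w.im ≠ 0 → ‖W w‖ ≤ (A1 + A2) * (1 + ‖w‖) ^ m / |w.im| ^ (m + 1) := by
    intro w hw
    have hw' : 0 < |w.im| := abs_pos.mpr hw
    rcases lt_or_gt_of_ne hw with h | h
    · have h3 := (h2 (-w) (by simpa using h)).2
      have h4 : W w = - Vp2 (flip f) ρ ε k c (-w) := by
        simp only [hWdef, V2, if_neg (not_lt.mpr h.le)]
      rw [h4, norm_neg]
      refine h3.trans ?_
      rw [norm_neg, Complex.neg_im, abs_of_neg h]
      gcongr
      · have : 0 < -w.im := by linarith
        positivity
      · linarith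
    · have h3 := (h1 w h).2
      have h4 : W w = Vp2 f ρ ε k c w := by
        simp only [hWdef, V2, if_pos h]
      rw [h4]
      refine h3.trans ?_
      rw [abs_of_pos h]
      gcongr
      linarith
  have hA0 : 0 ≤ A1 + A2 := by linarith
  have hLOC' : ∀ a : ℝ, LE' f ρ0 a → Ext W a := by
    intro a h
    exact hLOC hKER hVD hVB hFLIP hHOL hVERT hLIM hFUB hGLUE f ρ0 m k C hk hf ρ ε hpar c hc a h
  rw [← hWdef] at hVB'
  clear_value W
  -- every real point is an extension point
  have hall : ∀ a : ℝ, Ext W a := by
    by_contra hcon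
    push Not at hcon
    set E : Set ℝ := {a : ℝ | ¬ Ext W a} with hE
    have hEc : IsClosed E := by
      have := (isOpen_Ext W).isClosed_compl
      exact this
    have : Nonempty E := by
      obtain ⟨a, ha⟩ := hcon
      exact ⟨⟨a, ha⟩⟩
    have : CompleteSpace E := hEc.completeSpace_coe
    set F : ℕ → Set ℝ := fun n => {a : ℝ | WE f ρ0 a ∧ NE f ρ0 a ≤ n} with hF
    have hFc : ∀ n, IsClosed (F n) := fun n => hLSC f ρ0 hpar.h0 hf.cont n
    have hWI : ∀ a ∈ E, WE f ρ0 a := by
      intro a ha
      rcases hf.wint a with h | h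
      · exact h
      · exfalso
        apply ha
        exact hLOC' a h
    have hcov : (⋃ n : ℕ, (Subtype.val ⁻¹' (F n) : Set E)) = univ := by
      apply eq_univ_of_forall
      rintro ⟨a, ha⟩
      obtain ⟨n, hn⟩ := exists_nat_ge (NE f ρ0 a)
      rw [mem_iUnion]
      exact ⟨n, show (a ∈ F n) from ⟨hWI a ha, hn⟩⟩
    obtain ⟨n, hn⟩ := nonempty_interior_of_iUnion_of_closed
      (fun n => (hFc n).preimage continuous_subtype_val) hcov
    obtain ⟨⟨e, heE⟩, he⟩ := hn
    rw [mem_interior] at he
    obtain ⟨U', hU'sub, hU'o, heU'⟩ := he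
    obtain ⟨U, hUo, hUU'⟩ := isOpen_induced_iff.mp hU'o
    have heU : e ∈ U := by
      have : (⟨e, heE⟩ : E) ∈ Subtype.val ⁻¹' U := by rw [hUU']; exact heU'
      exact this
    obtain ⟨δ, hδ, hδU⟩ := Metric.isOpen_iff.mp hUo e heU
    have hEF : ∀ a ∈ E, |a - e| < δ → WE f ρ0 a ∧ NE f ρ0 a ≤ n := by
      intro a ha hae
      have h3 : a ∈ U := hδU (by rw [Metric.mem_ball, Real.dist_eq]; exact hae)
      have h4 : (⟨a, ha⟩ : E) ∈ U' := by rw [← hUU']; exact h3
      have h5 := hU'sub h4
      exact (show a ∈ F n from h5)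
    set α := e - δ / 2 with hα
    set β := e + δ / 2 with hβ
    have hαβ : α < β := by rw [hα, hβ]; linarith
    -- vertical bound over points of E
    have hvE : ∀ a ∈ E, α ≤ a → a ≤ β → ∀ w : ℂ, w.re = a → w.im ≠ 0 → ‖W w‖ ≤ B * n := by
      intro a ha h3 h4 w hw1 hw2
      have h5 := hEF a ha (by rw [abs_lt]; constructor <;> linarith)
      have h6 := (hVB' a h5.1).1 w.im hw2
      have h7 : ((a : ℂ) + w.im * Complex.I) = w := by
        rw [← hw1]; exact Complex.re_add_im w
      rw [h7] at h6
      refine h6.trans ?_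
      exact mul_le_mul_of_nonneg_left h5.2 hB0
    -- vertical bound over a point which is not in E
    have hvO : ∀ a : ℝ, ∃ M : ℝ, 0 ≤ M ∧ (a ∉ E → ∀ w : ℂ, w.re = a → w.im ≠ 0 → |w.im| ≤ 1 →
        ‖W w‖ ≤ M) := by
      intro a
      by_cases ha : a ∈ E
      · exact ⟨0, le_refl _, fun h => absurd ha h⟩
      · have haE : Ext W a := by
          by_contra h
          exact ha h
        have hcont : ContinuousOn (fun η : ℝ => Gx W ((a : ℂ) + η * Complex.I)) (Icc (-1) 1) := by
          intro η _
          apply ContinuousAt.continuousWithinAt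
          have h3 : ContinuousAt (Gx W) ((a : ℂ) + η * Complex.I) := by
            apply (diffAt_Gx hWd _).continuousAt
            right
            rw [vert_re]
            exact haE
          exact ContinuousAt.comp (f := fun η : ℝ => (a : ℂ) + η * Complex.I) h3
            (by fun_prop)
        obtain ⟨M, hM⟩ := isCompact_Icc.exists_bound_of_continuousOn hcont
        refine ⟨max M 0, le_max_right _ _, ?_⟩
        intro _ w hw1 hw2 hw3
        have h4 := hM w.im (by rw [mem_Icc]; exact abs_le.mp hw3)
        have h5 : ((a : ℂ) + w.im * Complex.I) = w := by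
          rw [← hw1]; exact Complex.re_add_im w
        rw [h5] at h4
        simp only [Gx, hw2, if_false] at h4
        exact h4.trans (le_max_left _ _)
    obtain ⟨Mα, hMα0, hMα⟩ := hvO α
    obtain ⟨Mβ, hMβ0, hMβ⟩ := hvO β
    set R : ℝ := |α| + |β| + 1 with hR
    have hnorm : ∀ w : ℂ, |w.im| ≤ 1 → α ≤ w.re → w.re ≤ β → ‖w‖ ≤ R := by
      intro w h3 h4 h5
      have h6 := Complex.norm_le_abs_re_add_abs_im w
      have h7 : |w.re| ≤ |α| + |β| := by
        rw [abs_le]
        constructor
        · have := neg_abs_le α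
          have := abs_nonneg β
          linarith
        · have := le_abs_self β
          have := abs_nonneg α
          linarith
      rw [hR]
      linarith
    set A' : ℝ := (A1 + A2) * (1 + R) ^ m with hA'
    have hR0 : 0 ≤ R := by rw [hR]; positivity
    have hA'0 : 0 ≤ A' := by rw [hA']; positivity
    have hgr' : ∀ w : ℂ, w.im ≠ 0 → |w.im| ≤ 1 → α ≤ w.re → w.re ≤ β →
        ‖W w‖ ≤ A' / |w.im| ^ (m + 1) := by
      intro w h3 h4 h5 h6
      refine (hgr w h3).trans ?_
      rw [hA']
      have := hnorm w h4 h5 h6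
      gcongr
    set M : ℝ := B * n + Mα + Mβ + A' with hM
    have hBn : 0 ≤ B * (n : ℝ) := by positivity
    have hM0 : 0 ≤ M := by rw [hM]; linarith
    -- the main bound
    have hbd : ∀ w : ℂ, w.im ≠ 0 → |w.im| < 1 → α < w.re → w.re < β → ‖W w‖ ≤ M := by
      intro w h3 h4 h5 h6
      by_cases haE : w.re ∈ E
      · refine (hvE w.re haE h5.le h6.le w rfl h3).trans ?_
        rw [hM]; linarith
      · set S : Set ℝ := E ∪ {α, β} with hS
        have hSc : IsClosed S := hEc.union (by
          have : ({α, β} : Set ℝ).Finite := by simp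
          exact this.isClosed)
        have haS : w.re ∉ S := by
          rintro (h | h)
          · exact haE h
          · rcases h with h | h
            · linarith
            · rw [mem_singleton_iff] at h; linarith
        have hK1 : IsCompact (S ∩ Icc α w.re) := isCompact_Icc.inter_left hSc
        have hK2 : IsCompact (S ∩ Icc w.re β) := isCompact_Icc.inter_left hSc
        obtain ⟨p, ⟨hpS, hp1, hp2⟩, hpm⟩ := hK1.exists_isGreatest
          ⟨α, Or.inr (by simp), le_refl _, h5.le⟩
        obtain ⟨q, ⟨hqS, hq1, hq2⟩, hqm⟩ := hK2.exists_isLeast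
          ⟨β, Or.inr (by simp), h6.le, le_refl _⟩
        have hpw : p < w.re := lt_of_le_of_ne hp2 (fun h => haS (h ▸ hpS))
        have hwq : w.re < q := lt_of_le_of_ne hq1 (fun h => haS (h ▸ hqS))
        have hgap : ∀ x : ℝ, p < x → x < q → x ∉ S := by
          intro x hx1 hx2 hxS
          rcases le_total x w.re with h | h
          · have := hpm ⟨hxS, by linarith, h⟩
            linarith
          · have := hqm ⟨hxS, h, by linarith⟩
            linarith
        have hside : ∀ s : ℝ, s ∈ S → α ≤ s → s ≤ β → ∀ z : ℂ, z.re = s → z.im ≠ 0 →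
            |z.im| ≤ 1 → ‖W z‖ ≤ M := by
          intro s hsS hs1 hs2 z hz1 hz2 hz3
          by_cases hsE : s ∈ E
          · refine (hvE s hsE hs1 hs2 z hz1 hz2).trans ?_
            rw [hM]; linarith
          · rcases hsS with h | h
            · exact absurd h hsE
            · rcases h with h | h
              · rw [h] at hsE hz1
                refine (hMα hsE z hz1 hz2 hz3).trans ?_
                rw [hM]; linarith
              · rw [mem_singleton_iff] at h
                rw [h] at hsE hz1
                refine (hMβ hsE z hz1 hz2 hz3).trans ?_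
                rw [hM]; linarith
        have hGW : ∀ z : ℂ, z.im ≠ 0 → Gx W z = W z := by
          intro z hz; simp [Gx, hz]
        have hres := hPL hDISC (Gx W) p q M A' (m + 1) (by linarith) hM0 hA'0 (by
            intro z hz
            apply DifferentiableAt.differentiableWithinAt
            apply diffAt_Gx hWd
            rcases hz with hz | ⟨hz1, hz2⟩
            · left; exact hz
            · right
              by_contra hcon2
              exact hgap z.re hz1 hz2 (Or.inl hcon2)) (by
            intro z hz1 hz2 hz3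
            rw [hGW z hz1]
            rcases hz3 with hz3 | hz3
            · exact hside p hpS hp1 (by linarith) z hz3 hz1 hz2
            · exact hside q hqS (by linarith) hq2 z hz3 hz1 hz2) (by
            intro z hz1 hz2 hz3
            have hz0 : z.im ≠ 0 := by
              intro h; rw [h] at hz1; simp at hz1
            rw [hGW z hz0]
            have := hgr' z hz0 hz1.le (by linarith) (by linarith)
            rw [hz1, one_pow, div_one] at this
            refine this.trans ?_
            rw [hM]; linarith) (by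
            intro z hz1 hz2 hz3 hz4
            rw [hGW z hz1]
            exact hgr' z hz1 hz2 (by linarith) (by linarith)) w hpw hwq h4
        rwa [hGW w h3] at hres
    -- glue
    obtain ⟨H, hH, heH⟩ := hGLUE W α β (fun _ => M) hαβ hWd
      (by
        rw [integrableOn_const_iff]
        right
        exact measure_Ioo_lt_top) (by
        refine Filter.Eventually.of_forall ?_
        intro a ha
        constructor
        · intro η hη1 hη2
          apply hbd
          · rw [vert_im]; exact hη1
          · rw [vert_im]; exact hη2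
          · rw [vert_re]; exact ha.1
          · rw [vert_re]; exact ha.2
        · by_cases haE : a ∈ E
          · have h5 := hEF a haE (by
              rw [abs_lt]
              have := ha.1
              have := ha.2
              constructor <;> linarith)
            exact ⟨_, (hVB' a h5.1).2⟩
          · have haE' : Ext W a := by
              by_contra h
              exact haE h
            refine ⟨Gx W (a : ℂ), ?_⟩
            have h3 : ContinuousAt (Gx W) (a : ℂ) := by
              apply (diffAt_Gx hWd _).continuousAt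
              right
              exact haE'
            have h4 := h3.tendsto.comp (tendsto_vert a {0}ᶜ)
            refine h4.congr' ?_
            filter_upwards [self_mem_nhdsWithin] with η hη
            have hη' : η ≠ 0 := hη
            simp [Gx, hη'])
    apply heE
    refine ⟨δ / 2, by linarith, H, hH, heH⟩
  refine ⟨Gx W, ?_, ?_⟩
  · intro w
    apply diffAt_Gx hWd
    right
    exact hall _
  · intro w hw
    simp [Gx, hw]

end Pool.Agent.Run7.h500.RD
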