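import Pool.Agent.Run7.h500.RD.Stm

/-! # Piece LIM: vertical limits (helper576) -/

open MeasureTheory Filter Topology Set

namespace Run7.h576.RD

open Pool.Agent.Run7.h500.RD

lemma base_im (a η : ℝ) (c : ℂ) (x y : ℝ) :
    (((a : ℂ) + η * Complex.I) * (y : ℂ) - (x : ℂ) + c).im = η * y + c.im := by
  simp

lemma base_re (a η : ℝ) (c : ℂ) (x y : ℝ) :
    (((a : ℂ) + η * Complex.I) * (y : ℂ) - (x : ℂ) + c).re = a * y - x + c.re := by
  simp

lemma base_bound (a η : ℝ) (c : ℂ) (hc : 0 < c.im) (hη : 0 ≤ η) (x y : ℝ) (hy : 0 ≤ y) :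
    1 + |x - a * y| ≤ ((1 + ‖c‖) / c.im + 1) *
      ‖((a : ℂ) + η * Complex.I) * (y : ℂ) - (x : ℂ) + c‖ := by
  set ζ := ((a : ℂ) + η * Complex.I) * (y : ℂ) - (x : ℂ) + c with hζ
  have h1 : c.im ≤ ‖ζ‖ := by
    have h2 : ζ.im = η * y + c.im := base_im a η c x y
    have h3 := Complex.abs_im_le_norm ζ
    have h4 := le_abs_self ζ.im
    have h5 : 0 ≤ η * y := mul_nonneg hη hy
    linarith
  have h2 : |a * y - x + c.re| ≤ ‖ζ‖ := by
    have h3 := Complex.abs_re_le_norm ζ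
    rwa [hζ, base_re] at h3
  have h3 : |c.re| ≤ ‖c‖ := Complex.abs_re_le_norm c
  have h4 : |x - a * y| ≤ |a * y - x + c.re| + |c.re| := by
    have h5 : x - a * y = -(a * y - x + c.re) + c.re := by ring
    rw [h5]
    refine (abs_add_le _ _).trans ?_
    rw [abs_neg]
  have h5 : 1 + ‖c‖ ≤ (1 + ‖c‖) / c.im * ‖ζ‖ := by
    rw [div_mul_eq_mul_div, le_div_iff₀ hc]
    exact mul_le_mul_of_nonneg_left h1 (by positivity)
  linarith

lemma up_meas : MeasurableSet up := measurableSet_lt measurable_const measurable_snd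

lemma ker_bound (k : ℕ) (a η : ℝ) (c : ℂ) (hc : 0 < c.im) (hη : 0 ≤ η) (z : ℝ × ℝ)
    (hy : 0 ≤ z.2) :
    ‖Pool.Agent.Run7.h500.RD.ker k c ((a : ℂ) + η * Complex.I) z‖ ≤
      ((1 + ‖c‖) / c.im + 1) ^ k / (1 + |z.1 - a * z.2|) ^ k := by
  have h := base_bound a η c hc hη z.1 z.2 hy
  have hpos : 0 < 1 + |z.1 - a * z.2| := by positivity
  have hK : 0 < (1 + ‖c‖) / c.im + 1 := by positivity
  have hζ : 0 < ‖((a : ℂ) + η * Complex.I) * (z.2 : ℂ) - (z.1 : ℂ) + c‖ := by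
    by_contra hcon
    have h0 : ‖((a : ℂ) + η * Complex.I) * (z.2 : ℂ) - (z.1 : ℂ) + c‖ = 0 :=
      le_antisymm (not_lt.1 hcon) (norm_nonneg _)
    rw [h0, mul_zero] at h
    linarith
  unfold Pool.Agent.Run7.h500.RD.ker
  rw [norm_inv, norm_pow, inv_eq_one_div, div_le_div_iff₀ (by positivity) (by positivity), one_mul,
    ← mul_pow]
  exact pow_le_pow_left₀ hpos.le h k

theorem t_LIM : S_LIM := by
  intro f k hf c hc a hW
  unfold Vp
  refine tendsto_integral_filter_of_dominated_convergence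
    (fun z => ((1 + ‖c‖) / c.im + 1) ^ k * ‖f z / (1 + |z.1 - a * z.2|) ^ k‖) ?_ ?_ ?_ ?_
  · refine Eventually.of_forall fun η => ?_
    refine Measurable.aestronglyMeasurable ?_
    have hm : Measurable f := hf.measurable
    unfold Pool.Agent.Run7.h500.RD.ker
    fun_prop
  · filter_upwards [self_mem_nhdsWithin] with η hη
    rw [ae_restrict_iff' up_meas]
    refine Eventually.of_forall fun z hz => ?_
    have h := ker_bound k a η c hc (le_of_lt hη) z (le_of_lt hz)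
    have hpos : 0 < (1 + |z.1 - a * z.2|) ^ k := by positivity
    rw [norm_mul, Complex.norm_real, norm_div, Real.norm_of_nonneg hpos.le]
    calc ‖f z‖ * ‖Pool.Agent.Run7.h500.RD.ker k c ((a : ℂ) + η * Complex.I) z‖
        ≤ ‖f z‖ * (((1 + ‖c‖) / c.im + 1) ^ k / (1 + |z.1 - a * z.2|) ^ k) :=
          mul_le_mul_of_nonneg_left h (norm_nonneg _)
      _ = ((1 + ‖c‖) / c.im + 1) ^ k * (‖f z‖ / (1 + |z.1 - a * z.2|) ^ k) := by ring
  · exact (hW.norm.const_mul _).integrableOn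
  · rw [ae_restrict_iff' up_meas]
    refine Eventually.of_forall fun z hz => ?_
    have h0 : ((a : ℂ) * (z.2 : ℂ) - (z.1 : ℂ) + c) ≠ 0 := by
      intro h
      have h1 := congrArg Complex.im h
      simp at h1
      exact hc.ne' h1
    have h1 : Tendsto (fun η : ℝ => ((a : ℂ) + η * Complex.I)) (𝓝[>] 0) (𝓝 (a : ℂ)) := by
      have h2 : Continuous fun η : ℝ => ((a : ℂ) + η * Complex.I) := by fun_prop
      have h3 := (h2.tendsto 0).mono_left (nhdsWithin_le_nhds (s := Ioi (0 : ℝ)))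
      simpa using h3
    unfold Pool.Agent.Run7.h500.RD.ker
    refine Tendsto.const_mul _ ?_
    refine Tendsto.inv₀ ?_ (pow_ne_zero k h0)
    refine Tendsto.pow ?_ k
    exact ((h1.mul_const _).sub_const _).add_const _

end Run7.h576.RD
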