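import Pool.Agent.Run7.h500.RD.ENT
import Pool.Agent.Run7.h500.RD.LIM
import Pool.Agent.Run7.h298.RD.FUB
import Pool.Agent.Run7.h298.RD.LINE
import Pool.Agent.Run7.h329.RD.VERT
import Pool.Agent.Run7.h417.RD.FLIP
import Pool.Agent.Run7.h495.RD.GLUE
import Pool.Agent.Run7.h592.RD.CHART
import Pool.Agent.Run7.h62.RD.HOL
import Pool.Agent.Run7.h62.RD.LSC
import Pool.Agent.Run7.h62.RD.VB
import Pool.Agent.Run7.h73.RD.LIOU
import Pool.Agent.Run7.h73.RD.VD
import Pool.Agent.Run7.h733.RD.DISC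
import Pool.Agent.Run7.h733.RD.PL
import Pool.Agent.Run7.h896.RD.CONE
import Pool.Agent.Run7.h896.RD.SLICE
import Pool.Agent.Run7.h942.RD.LOC
import Pool.Agent.Run7.h961.RD.BND
/-!
Assembly of project RD (helper500).  Pieces by helper62 (HOL, LSC, VB), helper73 (LIOU, VD),
helper298 (FUB, LINE), helper329 (VERT), helper417 (FLIP, TRANS), helper495 (GLUE), helper576 (LIM),
helper592 (CHART), helper733 (DISC, PL), helper896 (CONE, SLICE), helper942 (LOC), helper961 (BND).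
-/
set_option autoImplicit false
open MeasureTheory Filter Topology Set

namespace Pool.Agent.Run7.h500.RD

theorem ent : ∀ (f : ℝ × ℝ → ℝ) (m k : ℕ) (C : ℝ), Hyp f m k C → ∀ c : ℂ, 0 < c.im →
    ∃ H : ℂ → ℂ, Differentiable ℂ H ∧ ∀ w : ℂ, w.im ≠ 0 → H w = V f k c w :=
  t_ENT h73.RD.t_VD h62.RD.t_VB h942.RD.t_LOC Run7.h417.RD.t_FLIP h961.RD.t_BND h62.RD.t_HOL
    Run7.h329.RD.t_VERT Run7.h576.RD.t_LIM h298.RD.t_FUB h62.RD.t_LSC h733.RD.t_DISC h733.RD.t_PL
    Run7.h495.RD.t_GLUE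

/-- `V = 0` off the real axis. -/
theorem vp_zero (f : ℝ × ℝ → ℝ) (m k : ℕ) (C : ℝ) (hf : Hyp f m k C) (c w : ℂ) (hc : 0 < c.im)
    (hw : 0 < w.im) : Vp f k c w = 0 := by
  obtain ⟨H, hH, he⟩ := ent f m k C hf c hc
  obtain ⟨A1, hA1, h1⟩ := h961.RD.t_BND f m k C hf c hc
  obtain ⟨A2, hA2, h2⟩ := h961.RD.t_BND (flip f) m k C (Run7.h417.RD.t_FLIP f m k C hf) c hc
  have hgr : ∀ w : ℂ, w.im ≠ 0 → ‖H w‖ ≤ (A1 + A2) * (1 + ‖w‖) ^ m / |w.im| ^ (m + 1) := by
    intro w hw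
    have hw' : 0 < |w.im| := abs_pos.mpr hw
    rw [he w hw]
    rcases lt_or_gt_of_ne hw with h | h
    · have h3 := (h2 (-w) (by simpa using h)).2
      have h4 : V f k c w = - Vp (flip f) k c (-w) := by
        simp only [V, if_neg (not_lt.mpr h.le)]
      rw [h4, norm_neg]
      refine h3.trans ?_
      rw [norm_neg, Complex.neg_im, abs_of_neg h]
      gcongr
      · have : 0 < -w.im := by linarith
        positivity
      · linarith
    · have h3 := (h1 w h).2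
      have h4 : V f k c w = Vp f k c w := by
        simp only [V, if_pos h]
      rw [h4]
      refine h3.trans ?_
      rw [abs_of_pos h]
      gcongr
      linarith
  have h0 := h73.RD.t_LIOU h733.RD.t_DISC H (A1 + A2) m hH (by linarith) hgr w
  have h5 := he w (ne_of_gt hw)
  rw [h0] at h5
  rw [V, if_pos hw] at h5
  exact h5.symm

/-- the standing hypotheses force `f = 0` on every horizontal line. -/
theorem slice_zero (f : ℝ × ℝ → ℝ) (m k : ℕ) (C : ℝ) (hf : Hyp f m k C) (x : ℝ) :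
    f (x, 0) = 0 := by
  have h1 := h896.RD.t_SLICE h961.RD.t_BND f m k C hf
    (fun c w hc hw => vp_zero f m k C hf c w hc hw)
  have hk : 1 ≤ k - 1 := by
    have := hf.hk
    omega
  have hcont : Continuous (fun x : ℝ => f (x, 0)) := hf.cont.comp (by fun_prop)
  exact h298.RD.t_LINE (fun x => f (x, 0)) (k - 1) hcont (hf.hor 0) hk h1 x

theorem main : S_MAIN := by
  intro f hc hg hi h0 hd
  obtain ⟨m, k, C, hf⟩ := h592.RD.t_CHART h896.RD.t_CONE f hc hg hi h0 hd
  funext z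
  obtain ⟨x, y⟩ := z
  obtain ⟨C', hf'⟩ := Run7.h417.RD.t_TRANS f m k C hf y
  have := slice_zero _ m k C' hf' x
  simpa using this

end Pool.Agent.Run7.h500.RD
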