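import Pool.Agent.Run7.h500.RD.Main
import Pool.Agent.Run7.h500.RD.ENT2
set_option autoImplicit false
open MeasureTheory Filter Topology Set

namespace Pool.Agent.Run7.h500.RD

theorem vp2_zero (hKER : S_KER2) (hVD : S_VD2) (hVB : S_VB2) (hLOC : S_LOC2) (hFLIP : S_FLIP2)
    (hBND : S_BND2) (hHOL : S_HOL2) (hVERT : S_VERT2) (hLIM : S_LIM2) (hFUB : S_FUB2)
    (hLSC : S_LSC2) (f : ℝ × ℝ → ℝ) (ρ0 : ℝ) (m k : ℕ) (C : ℝ) (hk : m + 4 ≤ k)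
    (hf : Hyp2 f ρ0 m C) (ρ ε : ℝ) (hpar : Par ρ0 ρ ε) (c w : ℂ) (hc : 0 < c.im) (hw : 0 < w.im) :
    Vp2 f ρ ε k c w = 0 := by
  obtain ⟨H, hH, he⟩ := t_ENT2 hKER hVD hVB hLOC hFLIP hBND hHOL hVERT hLIM hFUB hLSC
    h733.RD.t_DISC h733.RD.t_PL Run7.h495.RD.t_GLUE f ρ0 m k C hk hf ρ ε hpar c hc
  obtain ⟨A1, hA1, h1⟩ := hBND hKER f ρ0 m k C hk hf ρ ε hpar c hc
  obtain ⟨A2, hA2, h2⟩ := hBND hKER (flip f) ρ0 m k C hk (hFLIP f ρ0 m C hf) ρ ε hpar c hc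
  have hgr : ∀ w : ℂ, w.im ≠ 0 → ‖H w‖ ≤ (A1 + A2) * (1 + ‖w‖) ^ m / |w.im| ^ (m + 1) := by
    intro w hw
    have hw' : 0 < |w.im| := abs_pos.mpr hw
    rw [he w hw]
    rcases lt_or_gt_of_ne hw with h | h
    · have h3 := (h2 (-w) (by simpa using h)).2
      have h4 : V2 f ρ ε k c w = - Vp2 (flip f) ρ ε k c (-w) := by
        simp only [V2, if_neg (not_lt.mpr h.le)]
      rw [h4, norm_neg]
      refine h3.trans ?_
      rw [norm_neg, Complex.neg_im, abs_of_neg h]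
      gcongr
      · have : 0 < -w.im := by linarith
        positivity
      · linarith
    · have h3 := (h1 w h).2
      have h4 : V2 f ρ ε k c w = Vp2 f ρ ε k c w := by
        simp only [V2, if_pos h]
      rw [h4]
      refine h3.trans ?_
      rw [abs_of_pos h]
      gcongr
      linarith
  have h0 := h73.RD.t_LIOU h733.RD.t_DISC H (A1 + A2) m hH (by linarith) hgr w
  have h5 := he w (ne_of_gt hw)
  rw [h0] at h5
  rw [V2, if_pos hw] at h5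
  exact h5.symm

theorem slice_zero2 (hKER : S_KER2) (hVD : S_VD2) (hVB : S_VB2) (hLOC : S_LOC2) (hFLIP : S_FLIP2)
    (hBND : S_BND2) (hHOL : S_HOL2) (hVERT : S_VERT2) (hLIM : S_LIM2) (hFUB : S_FUB2)
    (hLSC : S_LSC2) (hEPS : S_EPS2) (hSLICE : S_SLICE2)
    (f : ℝ × ℝ → ℝ) (ρ0 : ℝ) (m : ℕ) (C : ℝ) (hρ0 : 0 < ρ0) (hρ1 : ρ0 < 1)
    (hf : Hyp2 f ρ0 m C) (x : ℝ) : f (x, 0) = 0 := by
  have hz : ∀ c w : ℂ, 0 < c.im → 0 < w.im → Vp f (m + 4) c w = 0 := by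
    intro c w hc hw
    refine hEPS hKER f m (m + 4) C hf.cont le_rfl hf.growth ((1 + ρ0) / 2) (by linarith)
      (by linarith) c w hc hw ?_
    intro ε hε
    exact vp2_zero hKER hVD hVB hLOC hFLIP hBND hHOL hVERT hLIM hFUB hLSC f ρ0 m (m + 4) C le_rfl
      hf ((1 + ρ0) / 2) ε ⟨hρ0, by linarith, by linarith, hε⟩ c w hc hw
  have h1 := hSLICE f m (m + 4) C hf.cont (by omega) hf.growth hz
  have hcont : Continuous (fun x : ℝ => f (x, 0)) := hf.cont.comp (by fun_prop)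
  exact h298.RD.t_LINE (fun x => f (x, 0)) (m + 4 - 1) hcont (hf.hor 0) (by omega) h1 x

theorem main2 (hKER : S_KER2) (hVD : S_VD2) (hVB : S_VB2) (hLOC : S_LOC2) (hFLIP : S_FLIP2)
    (hBND : S_BND2) (hHOL : S_HOL2) (hVERT : S_VERT2) (hLIM : S_LIM2) (hFUB : S_FUB2)
    (hLSC : S_LSC2) (hEPS : S_EPS2) (hSLICE : S_SLICE2) (hTRANS : S_TRANS2) (hCHART : S_CHART2)
    (f : ℝ × ℝ → ℝ) (hc : Continuous f)
    (hg : ∃ c : ℝ, ∃ m : ℕ, 0 < c ∧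
      ∀ x y : ℝ, |f (x, y)| ≤ c * (1 + (Real.sqrt (x ^ 2 + y ^ 2)) ^ m))
    (hi : ∀ θ p : ℝ, Integrable
      (fun t : ℝ => f (p * Real.cos θ - t * Real.sin θ, p * Real.sin θ + t * Real.cos θ)))
    (h0 : ∀ θ p : ℝ,
      ∫ t : ℝ, f (p * Real.cos θ - t * Real.sin θ, p * Real.sin θ + t * Real.cos θ) = 0)
    (hd : Directions2 f) : f = 0 := by
  obtain ⟨ρ0, hρ0, hρ1, m, C, hf⟩ := hCHART h896.RD.t_CONE f hc hg hi h0 hd
  funext z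
  obtain ⟨x, y⟩ := z
  obtain ⟨C', hf'⟩ := hTRANS f ρ0 m C hρ0 hρ1 hf y
  have := slice_zero2 hKER hVD hVB hLOC hFLIP hBND hHOL hVERT hLIM hFUB hLSC hEPS hSLICE
    _ ρ0 m C' hρ0 hρ1 hf' x
  simpa using this

end Pool.Agent.Run7.h500.RD
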