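import Mathlib
/-!
# Project RD (MP_9de3af_an, injectivity of the Radon transform under polynomial growth)

THEOREM.  Let `f : R^2 -> R` be continuous, of polynomial growth, integrable on every line with
all line integrals 0, and suppose that for some `k` and EVERY direction `θ`, with
`u = (cos θ, sin θ)`, EITHER `∫ |f(z)| (1 + |z . u|)^(-k) dz < ∞` OR `∫ |f(z)| (1+|z|)^(-1) dz < ∞` over
some cone `|z . u| ≤ δ |z|`.  Then `f = 0`.
(Known, page: the same if `∫ |f(z)| (1+|z|)^(-1) dz < ∞` over the whole plane.)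

PROOF.  For `Im c > 0`, `Im w > 0` put `Vp(w) = ∫_{y>0} f(x,y) (w y - x + c)^(-k)`, and for
`Im w < 0` put `Vm(w) = - ∫_{y<0} f(x,y) (w y - x + c)^(-k)`.  Together they define a function `V`,
holomorphic off the real axis (BND, HOL).  For real `a` the integral over the whole plane
converges absolutely (hypothesis for the direction `x - a y`) and is 0 (FUB), so `V` has equal
limits `V(a ± i0)` at every real point (LIM), and `|V(a + iη)| <= B N(a)` (VERT) where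
`N(a) = ∫ |f| (1+|x - a y|)^(-k)`.  Let `E` be the closed set of real points across which `V` does
not extend holomorphically.  If `E` is not empty, Baire (LSC) gives an interval `I` meeting `E` with
`N <= n` on `E ∩ I`.  Phragmen-Lindelof in the rectangles over the gaps of `E` (PL) shows that `V` is
bounded on `I × ((-1,1) \ 0)`, and then `V` extends across `I` (GLUE), a contradiction.
So `V` is entire; by BND and DISC it tends to 0 at infinity, so `V = 0` (Liouville).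
Letting `w = iη`, `η → ∞` (SLICE) we get `∫ f(x,0) (c-x)^(1-k) dx = 0` for all `Im c > 0`, hence
`f(x,0) = 0` (LINE); translation (TRANS) gives `f = 0`.
-/
set_option autoImplicit false
open MeasureTheory Filter Topology Set

namespace Pool.Agent.Run7.h500.RD

/-- the direction `a` is integrable with weight -/
def WI (f : ℝ × ℝ → ℝ) (k : ℕ) (a : ℝ) : Prop :=
  Integrable (fun z : ℝ × ℝ => f z / (1 + |z.1 - a * z.2|) ^ k)

/-- the weighted norm of the direction is locally integrable near `a` -/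
def LI (f : ℝ × ℝ → ℝ) (k : ℕ) (a : ℝ) : Prop :=
  ∃ δ : ℝ, 0 < δ ∧ IntegrableOn
    (fun t : ℝ × (ℝ × ℝ) => f t.2 / (1 + |t.2.1 - t.1 * t.2.2|) ^ k)
    (Ioo (a - δ) (a + δ) ×ˢ (univ : Set (ℝ × ℝ)))

/-- Standing hypotheses on `f` (lines `x = b + a y`). -/
structure Hyp (f : ℝ × ℝ → ℝ) (m k : ℕ) (C : ℝ) : Prop where
  cont : Continuous f
  hk : m + 3 ≤ k
  growth : ∀ x y : ℝ, |f (x, y)| ≤ C * (1 + |x| + |y|) ^ m
  wint : ∀ a : ℝ, WI f k a ∨ LI f k a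
  zero : ∀ a b : ℝ, ∫ y : ℝ, f (b + a * y, y) = 0
  hor : ∀ y : ℝ, Integrable (fun x : ℝ => f (x, y))

/-- The kernel `(w y - x + c)^(-k)`. -/
noncomputable def ker (k : ℕ) (c w : ℂ) (z : ℝ × ℝ) : ℂ :=
  ((w * (z.2 : ℂ) - (z.1 : ℂ) + c) ^ k)⁻¹

/-- The half plane `y > 0`. -/
def up : Set (ℝ × ℝ) := {z | 0 < z.2}

/-- `Vp(w) = ∫_{y>0} f(x,y) (w y - x + c)^(-k)`. -/
noncomputable def Vp (f : ℝ × ℝ → ℝ) (k : ℕ) (c w : ℂ) : ℂ :=
  ∫ z in up, (f z : ℂ) * ker k c w z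

/-- Reflection in the `x` axis; the part over `y < 0` is treated as `Vp (flip f) k c (-w)`. -/
def flip (f : ℝ × ℝ → ℝ) : ℝ × ℝ → ℝ := fun z => f (z.1, -z.2)

/-- `V`: upper half plane `Vp f k c w`, lower half plane `- Vp (flip f) k c (-w)`. -/
noncomputable def V (f : ℝ × ℝ → ℝ) (k : ℕ) (c w : ℂ) : ℂ :=
  if 0 < w.im then Vp f k c w else - Vp (flip f) k c (-w)

/-- the weighted norm of the direction `a` -/
noncomputable def N (f : ℝ × ℝ → ℝ) (k : ℕ) (a : ℝ) : ℝ :=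
  ∫ z : ℝ × ℝ, |f z| / (1 + |z.1 - a * z.2|) ^ k

/-- FLIP.  (Also for the alternative `LI`: `a' ↦ -a'`.)  PROOF: direction `a` of `flip f` is direction `-a` of `f`; change of variables `y ↦ -y`
(measure preserving), `integral_neg_eq_self`. -/
def S_FLIP : Prop := ∀ f m k C, Hyp f m k C → Hyp (flip f) m k C

/-- TRANS.  (Also for the alternative `LI`: the constants are uniform for `a'` in a bounded set.)
PROOF: `|f(x, y+y0)| ≤ C (1+|x|+|y|+|y0|)^m ≤ C (1+|y0|)^m (1+|x|+|y|)^m`;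
`1+|x - a (y - y0)| ≤ (1+|a y0|) (1+|x - a y|)` and back, so the weights are comparable (use
`Integrable.comp_add_right`-type invariance of the volume of the plane and `Integrable.mono'`);
`∫ f(b + a y, y + y0) dy = ∫ f((b - a y0) + a y, y) dy = 0`. -/
def S_TRANS : Prop := ∀ f m k C, Hyp f m k C → ∀ y0 : ℝ,
  ∃ C' : ℝ, Hyp (fun z => f (z.1, z.2 + y0)) m k C'

/-- BND.  PROOF: let `w = u + iη`, `c = b + iσ`, `η, σ > 0`.  For `y > 0` put `ρ = η y + σ`,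
`s = x - u y - b`; then `|w y - x + c|^2 = s^2 + ρ^2`.  With `Λ = (1+|u|)/η`:
`1 + |x| + |y| ≤ 1 + |b| + |s| + (1+|u|) y ≤ K (1+Λ)(ρ + |s|)`, `K` depending on `b, σ` only
(`1 ≤ ρ/σ`, `(1+|u|) y ≤ Λ ρ`).  So the integrand is at most
`C K^m (1+Λ)^m (ρ+|s|)^m (s^2+ρ^2)^(-k/2) ≤ C K^m (1+Λ)^m 2^(m/2).. (s^2+ρ^2)^((m-k)/2)`, and
`∫ (s^2+ρ^2)^(-(k-m)/2) ds = const ρ^(1-(k-m))`, `∫_0^∞ (η y+σ)^(1-k+m) dy = const/η`
(`k - m ≥ 3`).  So `|Vp| ≤ const (1+Λ)^m / η ≤ const' (1+|w|)^m / η^(m+1)`.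
(Simpler: `(s^2+ρ^2)^(-3/2) ` after using `ρ ≥ σ` for the surplus power.) -/
def S_BND : Prop := ∀ f m k C, Hyp f m k C → ∀ c : ℂ, 0 < c.im → ∃ A : ℝ, 0 ≤ A ∧
  ∀ w : ℂ, 0 < w.im → IntegrableOn (fun z => (f z : ℂ) * ker k c w z) up ∧
    ‖Vp f k c w‖ ≤ A * (1 + ‖w‖) ^ m / w.im ^ (m + 1)

/-- HOL.  PROOF: `hasDerivAt_integral_of_dominated_loc_of_deriv_le`.  For `w0 = u+iη` and
`|w - w0| < η/2`: `|w y - x + c| ≥ |w0 y - x + c| - (η/2) y ≥ (1/2)|w0 y - x + c|` (since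
`|w0 y - x + c| ≥ Im ≥ η y`), the derivative of the integrand in `w` is
`-k y f (w y - x + c)^(-k-1)`, of modulus `≤ k 2^(k+1) |f| (y/|w0 y-x+c|) |w0 y-x+c|^(-k)
≤ k 2^(k+1) η^(-1) |f| |w0 y - x + c|^(-k)`, integrable by BND. -/
def S_HOL : Prop := S_BND → ∀ f m k C, Hyp f m k C → ∀ c : ℂ, 0 < c.im →
  DifferentiableOn ℂ (Vp f k c) {w | 0 < w.im}

/-- VERT.  (Only `WI f k a` and the continuity of `f` are used.)  PROOF: for `y > 0`, `η ≥ 0`, `z = (a+iη) y - x + c`: `|z| ≥ Im z ≥ Im c` and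
`1 + |x - a y| ≤ 1 + |c| + |Re z| ≤ ((1+|c|)/Im c + 1) |z|`.  (`1+|c| ≤ ((1+|c|)/Im c) |z|`.) -/
def S_VERT : Prop := ∀ f k, Continuous f → ∀ c : ℂ, 0 < c.im → ∀ a η : ℝ, WI f k a → 0 ≤ η →
  IntegrableOn (fun z => (f z : ℂ) * ker k c ((a : ℂ) + η * Complex.I) z) up ∧
    ‖Vp f k c ((a : ℂ) + η * Complex.I)‖ ≤ ((1 + ‖c‖) / c.im + 1) ^ k * N f k a

/-- LIM.  PROOF: dominated convergence, the bound of VERT
`|f| ((1+|c|)/Im c + 1)^k (1+|x-ay|)^(-k)` does not depend on `η ≥ 0`. -/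
def S_LIM : Prop := ∀ f k, Continuous f → ∀ c : ℂ, 0 < c.im → ∀ a : ℝ, WI f k a →
  Tendsto (fun η : ℝ => Vp f k c ((a : ℂ) + η * Complex.I)) (𝓝[>] 0) (𝓝 (Vp f k c (a : ℂ)))

/-- FUB.  PROOF: `Vp (flip f) k c (-a) = ∫_{y<0} f(x,y) (a y - x + c)^(-k)`, so the sum is the
integral over the plane (the line `y = 0` is null).  It converges absolutely by VERT's estimate
(for real `a` the estimate holds for all `y`).  Substitute `x = b' + a y` (shear, measure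
preserving) and use Fubini: `∫ (c - b')^(-k) (∫ f(b' + a y, y) dy) db' = 0`. -/
def S_FUB : Prop := ∀ f k, Continuous f → (∀ a b : ℝ, ∫ y : ℝ, f (b + a * y, y) = 0) →
  ∀ c : ℂ, 0 < c.im → ∀ a : ℝ, WI f k a →
  Vp f k c (a : ℂ) + Vp (flip f) k c (-(a : ℂ)) = 0

/-- LSC.  PROOF: Fatou (`lintegral_liminf_le`) for `a_j → a`. -/
def S_LSC : Prop := ∀ f k, Continuous f → ∀ M : ℝ, IsClosed {a : ℝ | WI f k a ∧ N f k a ≤ M}

/-- DISC.  PROOF: maximum principle (`Complex.norm_le_of_forall_mem_frontier_norm_le`) for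
`P(z) = G(z) ((z-u)^2 - r^2)^q` on the disc: on the circle `|(z-u)^2 - r^2| = 2 r |Im z|`
(so `|P| ≤ A (2r)^q`), for `|z-u| ≤ r/2` it is `≥ 3r^2/4`. -/
def S_DISC : Prop := ∀ (G : ℂ → ℂ) (u r A : ℝ) (q : ℕ), 0 < r → 0 ≤ A →
  DifferentiableOn ℂ G (Metric.ball (u : ℂ) r) → ContinuousOn G (Metric.closedBall (u : ℂ) r) →
  (∀ z ∈ Metric.sphere (u : ℂ) r, z.im ≠ 0 → ‖G z‖ ≤ A / |z.im| ^ q) →
  ∀ z ∈ Metric.closedBall (u : ℂ) (r / 2), ‖G z‖ ≤ A * 8 ^ q / r ^ q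

/-- PL (Phragmen-Lindelof in a rectangle with two bad boundary points `p`, `p'` on the real axis).
PROOF: by DISC with `r = min(u-p, p'-u, 1) * (1 - tiny)` (or apply it for all smaller `r`)
`‖G z‖ ≤ const dist(z, {p,p'})^(-n)` in the rectangle.  For `ε > 0` let
`G_ε(w) = G(w) exp(-ε (w-p)^(-1/2) - ε (p'-w)^(-1/2))` (principal powers; `Re (w-p) ≥ 0`,
`Re(p'-w) ≥ 0` on the closed rectangle, `|exp(-ε (w-p)^(-1/2))| ≤ exp(-ε cos(π/4) |w-p|^(-1/2)) ≤ 1`).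
`G_ε`, extended by 0 at `p, p'`, is continuous on the closed rectangle, holomorphic inside, and
`≤ M` on the boundary; so `≤ M` inside; let `ε → 0`. -/
def S_PL : Prop := S_DISC → ∀ (G : ℂ → ℂ) (p p' M A : ℝ) (n : ℕ), p < p' → 0 ≤ M → 0 ≤ A →
  DifferentiableOn ℂ G {w | w.im ≠ 0 ∨ (p < w.re ∧ w.re < p')} →
  (∀ w : ℂ, w.im ≠ 0 → |w.im| ≤ 1 → (w.re = p ∨ w.re = p') → ‖G w‖ ≤ M) →
  (∀ w : ℂ, |w.im| = 1 → p ≤ w.re → w.re ≤ p' → ‖G w‖ ≤ M) →
  (∀ w : ℂ, w.im ≠ 0 → |w.im| ≤ 1 → p ≤ w.re → w.re ≤ p' → ‖G w‖ ≤ A / |w.im| ^ n) →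
  ∀ w : ℂ, p < w.re → w.re < p' → |w.im| < 1 → ‖G w‖ ≤ M

/-- GLUE.  `G` is holomorphic on both sides of the real segment `(α,β)`, with an integrable
majorant `Φ(Re w)` (for almost all `Re w`) and a two-sided vertical limit at ALMOST EVERY real point
of the segment; then it extends.
PROOF: it is enough to do it near each real `a0` (then define `H` on the real points as the
vertical limits; local extensions have the vertical limits as values).  Take a small closed square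
`R` around `a0`, `R+`, `R-` its upper and lower halves.  For `w` inside `R+`: Cauchy's formula for
the rectangle `R+ ∩ {Im ≥ η}` and `0` for `R- ∩ {Im ≤ -η}`; choose the vertical sides of `R` over
good points; let `η → 0` (dominated convergence with `Φ`: the
two integrals over the real side cancel since the limits agree, the short sides are `O(η)`):
`G(w) = (1/2πi) ∮_{∂R} G(ζ)/(ζ-w) dζ`, the right side is holomorphic in the interior of `R`.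
(Other way: primitives of `G` on both sides extend continuously to the segment, with the same
boundary values up to a constant, so they glue to a continuous function holomorphic off the
segment, hence holomorphic; take the derivative.) -/
def S_GLUE : Prop := ∀ (G : ℂ → ℂ) (α β : ℝ) (Φ : ℝ → ℝ), α < β →
  DifferentiableOn ℂ G {w | w.im ≠ 0} → IntegrableOn Φ (Ioo α β) →
  (∀ᵐ a : ℝ, a ∈ Ioo α β →
    (∀ η : ℝ, η ≠ 0 → |η| < 1 → ‖G ((a : ℂ) + η * Complex.I)‖ ≤ Φ a) ∧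
    ∃ L : ℂ, Tendsto (fun η : ℝ => G ((a : ℂ) + η * Complex.I)) (𝓝[≠] 0) (𝓝 L)) →
  ∃ H : ℂ → ℂ, DifferentiableOn ℂ H {w | w.im ≠ 0 ∨ (α < w.re ∧ w.re < β)} ∧
    ∀ w : ℂ, w.im ≠ 0 → H w = G w

/-- VD.  PROOF: `V = Vp f k c` on the upper half plane, `V = -Vp (flip f) k c (-w)` on the lower one;
HOL for `f` and `flip f` (FLIP). -/
def S_VD : Prop := S_FLIP → S_BND → S_HOL → ∀ f m k C, Hyp f m k C → ∀ c : ℂ, 0 < c.im →
  DifferentiableOn ℂ (V f k c) {w | w.im ≠ 0}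

/-- VB.  Bounds and vertical limits of `V` at a real point `a` with `WI f k a`.
PROOF: VERT, LIM, FUB for `f` at `a` and for `flip f` at `-a` (`N (flip f) k (-a) = N f k a`). -/
def S_VB : Prop := S_VERT → S_LIM → S_FUB → ∀ f m k C, Hyp f m k C → ∀ c : ℂ, 0 < c.im →
  ∀ a : ℝ, WI f k a →
  (∀ η : ℝ, η ≠ 0 →
    ‖V f k c ((a : ℂ) + η * Complex.I)‖ ≤ ((1 + ‖c‖) / c.im + 1) ^ k * N f k a) ∧
  Tendsto (fun η : ℝ => V f k c ((a : ℂ) + η * Complex.I)) (𝓝[≠] 0) (𝓝 (Vp f k c (a : ℂ)))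

/-- LOC.  PROOF: by Fubini `WI f k a'` for almost all `a'` in `(a-δ, a+δ)` and `N f k` is integrable
there; apply GLUE to `V` with `Φ = const * N f k` and VB. -/
def S_LOC : Prop := S_VD → S_VB → S_FLIP → S_BND → S_HOL → S_VERT → S_LIM → S_FUB → S_GLUE →
  ∀ f m k C, Hyp f m k C → ∀ c : ℂ, 0 < c.im → ∀ a : ℝ, LI f k a →
  ∃ δ : ℝ, 0 < δ ∧ ∃ H : ℂ → ℂ,
    DifferentiableOn ℂ H {w | w.im ≠ 0 ∨ (a - δ < w.re ∧ w.re < a + δ)} ∧
    ∀ w : ℂ, w.im ≠ 0 → H w = V f k c w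

/-- ENT (the Baire argument; helper500).  -/
def S_ENT : Prop := S_VD → S_VB → S_LOC → S_FLIP → S_BND → S_HOL → S_VERT → S_LIM → S_FUB →
  S_LSC → S_DISC → S_PL → S_GLUE → ∀ f m k C, Hyp f m k C → ∀ c : ℂ, 0 < c.im →
  ∃ H : ℂ → ℂ, Differentiable ℂ H ∧ ∀ w : ℂ, w.im ≠ 0 → H w = V f k c w

/-- LIOU.  PROOF: let `‖V w‖ ≤ A (1+|w|)^m / |Im w|^(m+1)` off the real axis (BND for `f` and
`flip f`).  If `|Im z| ≥ |z|/8`, `|z| ≥ 1`, this is `≤ const/|z|`.  If `|Im z| < |z|/8`, use DISC with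
`u = Re z`, `r = |u|/2`, `q = m+1`: on the circle `‖H‖ ≤ A (1+2|u|)^m/|Im|^(m+1)`, so
`‖H z‖ ≤ A (1+2|u|)^m 8^(m+1) 2^(m+1)/|u|^(m+1) ≤ const/|u|`.  So `H → 0` at infinity and `H = 0`
(`Differentiable.apply_eq_of_tendsto_cocompact`). -/
def S_LIOU : Prop := S_DISC → ∀ (H : ℂ → ℂ) (A : ℝ) (m : ℕ), Differentiable ℂ H → 0 ≤ A →
  (∀ w : ℂ, w.im ≠ 0 → ‖H w‖ ≤ A * (1 + ‖w‖) ^ m / |w.im| ^ (m + 1)) → ∀ w : ℂ, H w = 0

/-- SLICE.  PROOF: `0 = η Vp(iη) = ∫_{t>0} ∫ f(x, t/η) (i t - x + c)^(-k) dx dt` (substitution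
`t = η y`).  Let `η → ∞`: `|f(x,t/η)| ≤ C (1+|x|+t)^m` for `η ≥ 1`, and
`(1+|x|+t)^m |i t - x + c|^(-k)` is integrable on `t > 0` (`k ≥ m+3`, `|it-x+c| ≥ const (1+|x|+t)`);
by continuity the limit is `∫_{t>0}∫ f(x,0) (i t - x + c)^(-k) = ∫ f(x,0) (c-x)^(1-k)/(i(k-1)) dx`,
since `∫_0^∞ (i t + z)^(-k) dt = z^(1-k)/(i(k-1))` for `Im z > 0`. -/
def S_SLICE : Prop := S_BND → ∀ f m k C, Hyp f m k C →
  (∀ c w : ℂ, 0 < c.im → 0 < w.im → Vp f k c w = 0) →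
  ∀ c : ℂ, 0 < c.im → ∫ x : ℝ, (f (x, 0) : ℂ) * ((c - (x : ℂ)) ^ (k - 1))⁻¹ = 0

/-- LINE.  PROOF: (1) down to `p = 1`: for `p ≥ 2` integrate the identity for `c + i t` over `t > 0`
(Fubini, `∫_0^∞ (z + i t)^(-p) dt = z^(1-p)/(i(p-1))`, absolutely convergent as `g ∈ L^1`).
(2) `p = 1`, `c = b + iη`: imaginary part: `∫ g(x) η/((x-b)^2+η^2) dx = 0` for all `η > 0`; as
`η → 0` it tends to `π g(b)` (continuity near `b`; the part `|x-b| ≥ 1` is `≤ η ‖g‖_1`). -/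
def S_LINE : Prop := ∀ (g : ℝ → ℝ) (p : ℕ), Continuous g → Integrable g → 1 ≤ p →
  (∀ c : ℂ, 0 < c.im → ∫ x : ℝ, (g x : ℂ) * ((c - (x : ℂ)) ^ p)⁻¹ = 0) → ∀ x, g x = 0

/-- CONE.  PROOF: for `a'` near `a` and `z = (x,y)` in the cone `|x - a y| ≤ δ (1+|x|+|y|)`:
`∫ (1+|x - a' y|)^(-k) da' ≤ const / (1+|x|+|y|)` (if `|y| ≥ const (1+|x|+|y|)` substitute; otherwise,
`δ` small, `1+|x|+|y| ≤ const`; make `δ` smaller first: the hypothesis passes to smaller `δ`);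
outside the cone and `|a' - a| ≤ δ/2`: `1+|x - a' y| ≥ (δ/2) (1+|x|+|y|)` and
`(1+|x|+|y|)^(m-k)` is integrable on the plane (`k ≥ m+3`).  Tonelli. -/
def S_CONE : Prop := ∀ (f : ℝ × ℝ → ℝ) (m k : ℕ) (C : ℝ), Continuous f → m + 3 ≤ k →
  (∀ x y : ℝ, |f (x, y)| ≤ C * (1 + |x| + |y|) ^ m) → ∀ a δ : ℝ, 0 < δ →
  IntegrableOn (fun z : ℝ × ℝ => f z / (1 + |z.1| + |z.2|))
    {z | |z.1 - a * z.2| ≤ δ * (1 + |z.1| + |z.2|)} → LI f k a

/-- the hypothesis on the directions in the theorem: for one `k` and every angle `θ`, either the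
weighted integral of the direction converges, or `|f(z)|/(1+|z|)` is integrable over a cone around
the direction of the lines `z . u = p`. -/
def Directions (f : ℝ × ℝ → ℝ) : Prop :=
  ∃ k : ℕ, ∀ θ : ℝ,
    Integrable (fun z : ℝ × ℝ => f z / (1 + |z.1 * Real.cos θ + z.2 * Real.sin θ|) ^ k) ∨
    ∃ δ : ℝ, 0 < δ ∧ IntegrableOn (fun z : ℝ × ℝ => f z / (1 + Real.sqrt (z.1 ^ 2 + z.2 ^ 2)))
      {z | |z.1 * Real.cos θ + z.2 * Real.sin θ| ≤ δ * Real.sqrt (z.1 ^ 2 + z.2 ^ 2)}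

/-- CHART.  PROOF: growth: `1 + sqrt(x^2+y^2)^m ≤ 2 (1+|x|+|y|)^m`; take `K = max k (m+3)`.
Direction `a`: `cos θ = 1/sqrt(1+a^2)`, `sin θ = -a/sqrt(1+a^2)` (`θ = -arctan a`), then
`|x cos θ + y sin θ| = |x - a y|/sqrt(1+a^2) ≤ |x - a y|`, so
`(1+|x-ay|)^(-K) ≤ (1+|x cos θ + y sin θ|)^(-k)`.  The line `x = b + a y` is the line with this `θ`
and `p = b/sqrt(1+a^2)`, `t = sqrt(1+a^2) (y + a b/(1+a^2))` (affine change of variables).
Horizontal lines: `θ = π/2`.  A cone of `Directions` contains, up to a bounded set (on which `f` is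
bounded), a cone of CONE with smaller `δ`. -/
def S_CHART : Prop := S_CONE → ∀ f : ℝ × ℝ → ℝ, Continuous f →
  (∃ c : ℝ, ∃ m : ℕ, 0 < c ∧
    ∀ x y : ℝ, |f (x, y)| ≤ c * (1 + (Real.sqrt (x ^ 2 + y ^ 2)) ^ m)) →
  (∀ θ p : ℝ, Integrable
    (fun t : ℝ => f (p * Real.cos θ - t * Real.sin θ, p * Real.sin θ + t * Real.cos θ))) →
  (∀ θ p : ℝ,
    ∫ t : ℝ, f (p * Real.cos θ - t * Real.sin θ, p * Real.sin θ + t * Real.cos θ) = 0) →
  Directions f →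
  ∃ m k C, Hyp f m k C

/-- The theorem. -/
def S_MAIN : Prop := ∀ f : ℝ × ℝ → ℝ, Continuous f →
  (∃ c : ℝ, ∃ m : ℕ, 0 < c ∧
    ∀ x y : ℝ, |f (x, y)| ≤ c * (1 + (Real.sqrt (x ^ 2 + y ^ 2)) ^ m)) →
  (∀ θ p : ℝ, Integrable
    (fun t : ℝ => f (p * Real.cos θ - t * Real.sin θ, p * Real.sin θ + t * Real.cos θ))) →
  (∀ θ p : ℝ,
    ∫ t : ℝ, f (p * Real.cos θ - t * Real.sin θ, p * Real.sin θ + t * Real.cos θ) = 0) →
  Directions f →
  f = 0

end Pool.Agent.Run7.h500.RD
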